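import Pool.Agent.W273.VR.Main

/-! Many different non-vanishing degrees. -/

set_option autoImplicit false

namespace Pool.Agent.W273.VR

lemma flip_flip {n : ℕ} (i : Fin n) (x : Fin n → Bool) : flip i (flip i x) = x := by
  funext j
  unfold flip
  by_cases h : j = i
  · subst h; simp
  · simp [Function.update_of_ne h]

section card

variable {b : ℕ} {G : Type} [AddCommGroup G] [Fintype G] [DecidableEq G]

lemma card_fibre (h2 : ∀ g : G, g + g = 0) (s : Fin b → G) (τ : G)
    (hs0 : ∀ i, s i ≠ 0) (hsτ : ∀ i, s i ≠ τ)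
    (hsur : ∀ g, g ≠ 0 → g ≠ τ → ∃ i, s i = g) (i₀ : Fin b) (c : G) :
    (Finset.univ.filter fun x : Fin b → Bool => syn s x = c).card * Fintype.card G = 2 ^ b := by
  set N : G → ℕ := fun g => (Finset.univ.filter fun x : Fin b → Bool => syn s x = g).card with hN
  have h1 : ∀ i g, N (g + s i) = N g := by
    intro i g
    rw [hN]
    refine Finset.card_nbij' (flip i) (flip i) ?_ ?_ ?_ ?_
    · intro x hx
      simp only [Finset.coe_filter, Finset.mem_univ, true_and, Set.mem_setOf_eq] at hx ⊢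
      rw [syn_flip s h2, hx, add_assoc, h2, add_zero]
    · intro x hx
      simp only [Finset.coe_filter, Finset.mem_univ, true_and, Set.mem_setOf_eq] at hx ⊢
      rw [syn_flip s h2, hx]
    · intro x _; exact flip_flip i x
    · intro x _; exact flip_flip i x
  have h3 : ∀ g, N (c + g) = N c := by
    intro g
    by_cases h0 : g = 0
    · rw [h0, add_zero]
    by_cases hg : g = τ
    · obtain ⟨j, hj⟩ := hsur (τ + s i₀) (fun h => by
        have := congrArg (fun g => τ + g) h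
        simp only [← add_assoc, h2, zero_add, add_zero] at this
        exact hsτ i₀ this) (fun h => hs0 i₀ (by simpa using h))
      have h4 : c + g = c + s j + s i₀ := by
        rw [hj, hg, add_assoc, add_assoc, h2, add_zero]
      rw [h4, h1, h1]
    · obtain ⟨i, rfl⟩ := hsur g h0 hg
      exact h1 i c
  have h4 : (Finset.univ : Finset (Fin b → Bool)).card = ∑ g : G, N g :=
    Finset.card_eq_sum_card_fiberwise fun x _ => Finset.mem_univ _
  have h5 : ∀ g, N g = N c := by
    intro g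
    have : g = c + (c + g) := by rw [← add_assoc, h2, zero_add]
    rw [this, h3]
  rw [Finset.sum_congr rfl fun g _ => h5 g, Finset.sum_const, Finset.card_univ, Finset.card_univ,
    smul_eq_mul, Fintype.card_fun, Fintype.card_bool, Fintype.card_fin] at h4
  rw [mul_comm]
  exact h4.symm

end card

lemma card_half {a : ℕ} (i : Fin a) :
    (Finset.univ.filter fun u : Fin a → Bool => u i = false).card = 2 ^ (a - 1) := by
  have h1 : (Finset.univ.filter fun u : Fin a → Bool => u i = false).card =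
      (Finset.univ.filter fun u : Fin a → Bool => ¬ u i = false).card := by
    refine Finset.card_nbij' (flip i) (flip i) ?_ ?_ ?_ ?_
    · intro x hx
      simp only [Finset.coe_filter, Finset.mem_univ, true_and, Set.mem_setOf_eq] at hx ⊢
      unfold flip
      rw [Function.update_self, hx]
      simp
    · intro x hx
      simp only [Finset.coe_filter, Finset.mem_univ, true_and, Set.mem_setOf_eq] at hx ⊢
      unfold flip
      rw [Function.update_self]
      simpa using hx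
    · intro x _; exact flip_flip i x
    · intro x _; exact flip_flip i x
  have h2 := Finset.card_filter_add_card_filter_not (s := (Finset.univ : Finset (Fin a → Bool)))
    (fun u => u i = false)
  rw [← h1, Finset.card_univ, Fintype.card_fun, Fintype.card_bool, Fintype.card_fin] at h2
  have h3 : (2 : ℕ) ^ a = 2 ^ (a - 1) * 2 := by
    rw [← pow_succ]
    congr 1
    have := i.2
    omega
  rw [h3] at h2
  omega

abbrev G4 : Type := ZMod 2 × ZMod 2 × ZMod 2 × ZMod 2
abbrev G3 : Type := ZMod 2 × ZMod 2 × ZMod 2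

lemma g4two : ∀ g : G4, g + g = 0 := by decide
lemma g3two : ∀ g : G3, g + g = 0 := by decide

/-- the data on the last coordinates -/
structure Data (b : ℕ) where
  s4 : Fin b → G4
  s3 : Fin b → G3
  h4 : ∑ i, s4 i = (0, 0, 0, 1)
  h40 : ∀ i, s4 i ≠ 0
  h4τ : ∀ i, s4 i ≠ (0, 0, 0, 1)
  h4s : ∀ g : G4, g ≠ 0 → g ≠ (0, 0, 0, 1) → ∃ i, s4 i = g
  h3 : ∑ i, s3 i = (0, 0, 1)
  h30 : ∀ i, s3 i ≠ 0
  h3τ : ∀ i, s3 i ≠ (0, 0, 1)
  h3s : ∀ g : G3, g ≠ 0 → g ≠ (0, 0, 1) → ∃ i, s3 i = g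
  hf : ∀ i, (s4 i).1 = (s3 i).1
  i₀ : Fin b

theorem nontrivial_data {a b : ℕ} (D : Data b) (ha : Even a) (i₁ : Fin a) (m k j q : ℕ)
    (hm : b = m + 4) (hj : j ≤ 2 ^ (a - 1)) (hq : 2 ^ m * (2 ^ a + 2 * j) = q + 1) :
    HomologyNonzero (VRFace (a + b + k) (a + b - 2)) q := by
  classical
  obtain ⟨Y, hY, hYj⟩ := Finset.exists_subset_card_eq ((card_half i₁).symm ▸ hj)
  let F4 : ZMod 2 → Finset (Fin b → Bool) := fun e =>
    Finset.univ.filter fun x => syn D.s4 x = (e, 0, 0, 0)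
  let F3 : ZMod 2 → Finset (Fin b → Bool) := fun e =>
    Finset.univ.filter fun x => syn D.s3 x = (e, 0, 0)
  have hw4 : ∀ e, Good (fun i => (D.s4 i).1) (F4 e) e := fun e =>
    good_syn g4two D.s4 (AddMonoidHom.fst _ _) (0, 0, 0, 1) D.h4 (by decide) D.h40 D.h4τ D.h4s
      D.i₀ (e, 0, 0, 0)
  have hw3 : ∀ e, Good (fun i => (D.s3 i).1) (F3 e) e := fun e =>
    good_syn g3two D.s3 (AddMonoidHom.fst _ _) (0, 0, 1) D.h3 (by decide) D.h30 D.h3τ D.h3s
      D.i₀ (e, 0, 0)
  have hww : (fun i => (D.s3 i).1) = fun i => (D.s4 i).1 := funext fun i => (D.hf i).symm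
  rw [hww] at hw3
  have hw : ∑ i, (D.s4 i).1 = 0 := by
    have := congrArg (AddMonoidHom.fst (ZMod 2) (ZMod 2 × ZMod 2 × ZMod 2)) D.h4
    rw [map_sum] at this
    exact this
  have c4 : ∀ e, (F4 e).card = 2 ^ m := by
    intro e
    have := card_fibre g4two D.s4 (0, 0, 0, 1) D.h40 D.h4τ D.h4s D.i₀ (e, 0, 0, 0)
    have hc : Fintype.card G4 = 2 ^ 4 := by decide
    have hb : (2 : ℕ) ^ b = 2 ^ (m + 4) := by rw [hm]
    rw [hc, hb, pow_add] at this
    exact Nat.eq_of_mul_eq_mul_right (by norm_num) this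
  have c3 : ∀ e, (F3 e).card = 2 ^ m * 2 := by
    intro e
    have := card_fibre g3two D.s3 (0, 0, 1) D.h30 D.h3τ D.h3s D.i₀ (e, 0, 0)
    have hc : Fintype.card G3 = 2 ^ 3 := by decide
    have hb : (2 : ℕ) ^ b = 2 ^ (m + 4) := by rw [hm]
    rw [hc, hb, pow_add, show (2 : ℕ) ^ 4 = 2 * 2 ^ 3 by norm_num, ← mul_assoc] at this
    exact Nat.eq_of_mul_eq_mul_right (by norm_num) this
  let T : (Fin a → Bool) → Finset (Fin b → Bool) := fun u =>
    if u ∈ Y ∨ neg u ∈ Y then F3 (pr u) else F4 (pr u)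
  refine nontrivial_main (T := T) ha hw ?_ ?_ k q ?_
  · intro u
    show Good _ (if u ∈ Y ∨ neg u ∈ Y then F3 (pr u) else F4 (pr u)) (pr u)
    split_ifs
    · exact hw3 _
    · exact hw4 _
  · intro u
    show (if neg u ∈ Y ∨ neg (neg u) ∈ Y then F3 (pr (neg u)) else F4 (pr (neg u))) =
      if u ∈ Y ∨ neg u ∈ Y then F3 (pr u) else F4 (pr u)
    rw [neg_neg', pr_neg ha]
    exact if_congr or_comm rfl rfl
  · have h1 : ∀ u, (T u).card = 2 ^ m + if u ∈ Y ∪ Y.image neg then 2 ^ m else 0 := by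
      intro u
      have h2 : (u ∈ Y ∪ Y.image neg) ↔ (u ∈ Y ∨ neg u ∈ Y) := by
        rw [Finset.mem_union, Finset.mem_image]
        refine or_congr Iff.rfl ⟨?_, fun h => ⟨_, h, neg_neg' u⟩⟩
        rintro ⟨y, hy, rfl⟩
        rwa [neg_neg']
      show (if u ∈ Y ∨ neg u ∈ Y then F3 (pr u) else F4 (pr u)).card = _
      by_cases h : u ∈ Y ∨ neg u ∈ Y
      · rw [if_pos h, if_pos (h2.2 h), c3]; ring
      · rw [if_neg h, if_neg (fun h' => h (h2.1 h')), c4, add_zero]
    rw [Finset.sum_congr rfl fun u _ => h1 u, Finset.sum_add_distrib, Finset.sum_const,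
      Finset.card_univ, Fintype.card_fun, Fintype.card_bool, Fintype.card_fin, smul_eq_mul,
      ← Finset.sum_filter, Finset.sum_const, smul_eq_mul, Finset.filter_mem_eq_inter,
      Finset.univ_inter, Finset.card_union_of_disjoint, Finset.card_image_of_injective, hYj, ← hq]
    · ring
    · intro x y h
      rw [← neg_neg' x, h, neg_neg']
    · rw [Finset.disjoint_left]
      intro x hx hx'
      obtain ⟨y, hy, rfl⟩ := Finset.mem_image.1 hx'
      have e1 := (Finset.mem_filter.1 (hY hx)).2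
      have e2 := (Finset.mem_filter.1 (hY hy)).2
      unfold neg at e1
      rw [e2] at e1
      exact absurd e1 (by decide)

/-- fourteen coordinates -/
def D14 : Data 14 where
  s4 := ![(0,0,1,0),(0,0,1,1),(0,1,0,0),(0,1,0,1),(0,1,1,0),(0,1,1,1),(1,0,0,0),(1,0,0,1),
    (1,0,1,0),(1,0,1,1),(1,1,0,0),(1,1,0,1),(1,1,1,0),(1,1,1,1)]
  s3 := ![(0,1,0),(0,1,0),(0,1,0),(0,1,1),(0,1,1),(0,1,1),(1,0,0),(1,0,0),(1,0,1),(1,0,1),
    (1,1,0),(1,1,0),(1,1,1),(1,1,1)]
  h4 := by decide
  h40 := by decide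
  h4τ := by decide
  h4s := by decide
  h3 := by decide
  h30 := by decide
  h3τ := by decide
  h3s := by decide
  hf := by decide
  i₀ := 0

/-- seventeen coordinates -/
def D17 : Data 17 where
  s4 := ![(0,0,1,0),(0,0,1,1),(0,1,0,0),(0,1,0,1),(0,1,1,0),(0,1,1,1),(1,0,0,0),(1,0,0,1),
    (1,0,1,0),(1,0,1,1),(1,1,0,0),(1,1,0,1),(1,1,1,0),(1,1,1,1),(0,0,1,0),(1,0,0,0),(1,0,1,0)]
  s3 := ![(0,1,0),(0,1,0),(0,1,0),(0,1,1),(0,1,1),(0,1,1),(1,0,0),(1,0,0),(1,0,1),(1,0,1),
    (1,1,0),(1,1,0),(1,1,1),(1,1,1),(0,1,0),(1,0,0),(1,1,0)]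
  h4 := by decide
  h40 := by decide
  h4τ := by decide
  h4s := by decide
  h3 := by decide
  h30 := by decide
  h3τ := by decide
  h3s := by decide
  hf := by decide
  i₀ := 0

end Pool.Agent.W273.VR
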