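import Mathlib

/-! Codes in the cube and antipodal pairs. -/

set_option autoImplicit false

namespace Pool.Agent.W273.VR

/-- change one coordinate -/
def flip {n : ℕ} (i : Fin n) (x : Fin n → Bool) : Fin n → Bool := Function.update x i (!x i)

/-- the antipode -/
def neg {n : ℕ} (x : Fin n → Bool) : Fin n → Bool := fun i => !x i

lemma neg_neg' {n : ℕ} (x : Fin n → Bool) : neg (neg x) = x := by
  funext i; simp [neg]

lemma neg_flip {n : ℕ} (i : Fin n) (x : Fin n → Bool) : neg (flip i x) = flip i (neg x) := by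
  funext j
  unfold neg flip
  by_cases h : j = i
  · subst h; simp
  · simp [Function.update_of_ne h]

lemma hd_sum {n : ℕ} (x y : Fin n → Bool) :
    hammingDist x y = ∑ i, if x i = y i then 0 else 1 := by
  unfold hammingDist
  rw [Finset.card_filter]
  exact Finset.sum_congr rfl fun i _ => by by_cases h : x i = y i <;> simp [h]

lemma hd_neg {n : ℕ} (x y : Fin n → Bool) : hammingDist x y + hammingDist (neg x) y = n := by
  rw [hd_sum, hd_sum, ← Finset.sum_add_distrib]
  have : ∀ i, ((if x i = y i then 0 else 1) + if neg x i = y i then 0 else 1) = 1 := by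
    intro i
    unfold neg
    cases x i <;> cases y i <;> simp
  simp [this]

lemma hd_neg_neg {n : ℕ} (x y : Fin n → Bool) :
    hammingDist (neg x) (neg y) = hammingDist x y := by
  rw [hd_sum, hd_sum]
  refine Finset.sum_congr rfl fun i _ => ?_
  unfold neg
  cases x i <;> cases y i <;> simp

lemma hd_flip {n : ℕ} (i : Fin n) (x y : Fin n → Bool) :
    hammingDist (flip i x) y ≤ hammingDist x y + 1 := by
  have h1 : hammingDist (flip i x) x ≤ 1 := by
    unfold hammingDist
    refine (Finset.card_le_card (t := {i}) fun j hj => ?_).trans (by simp)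
    rw [Finset.mem_filter] at hj
    rw [Finset.mem_singleton]
    by_contra h
    exact hj.2 (by unfold flip; rw [Function.update_of_ne h])
  have h2 := hammingDist_triangle (flip i x) x y
  omega

lemma hd_one {n : ℕ} {x y : Fin n → Bool} (h : hammingDist x y ≤ 1) :
    x = y ∨ ∃ i, y = flip i x := by
  by_cases hxy : x = y
  · exact Or.inl hxy
  right
  obtain ⟨i, hi⟩ := Function.ne_iff.1 hxy
  refine ⟨i, ?_⟩
  funext j
  unfold flip
  by_cases hj : j = i
  · subst hj
    rw [Function.update_self]
    revert hi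
    cases x j <;> cases y j <;> simp
  · rw [Function.update_of_ne hj]
    by_contra hne
    unfold hammingDist at h
    rw [Finset.card_le_one] at h
    exact hj (h j (by simpa using fun e => hne e.symm) i (by simpa using hi))

/-- weighted parity -/
def par {n : ℕ} (w : Fin n → ZMod 2) (x : Fin n → Bool) : ZMod 2 := ∑ i, if x i then w i else 0

/-- syndrome -/
def syn {n : ℕ} {G : Type} [AddCommGroup G] (s : Fin n → G) (x : Fin n → Bool) : G :=
  ∑ i, if x i then s i else 0

section syn

variable {n : ℕ} {G : Type} [AddCommGroup G] (s : Fin n → G)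

lemma syn_flip (h2 : ∀ g : G, g + g = 0) (i : Fin n) (x : Fin n → Bool) :
    syn s (flip i x) = syn s x + s i := by
  unfold syn
  rw [← Finset.add_sum_erase _ _ (Finset.mem_univ i),
    ← Finset.add_sum_erase (a := i) Finset.univ (fun j => if x j then s j else 0)
      (Finset.mem_univ i)]
  have h : ∀ j ∈ Finset.univ.erase i, (if flip i x j then s j else 0) =
      if x j then s j else 0 := by
    intro j hj
    unfold flip
    rw [Function.update_of_ne (Finset.ne_of_mem_erase hj)]
  rw [Finset.sum_congr rfl h]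
  unfold flip
  rw [Function.update_self]
  cases x i
  · simp [add_comm]
  · simp only [Bool.not_true, Bool.false_eq_true, if_false, if_true]
    rw [add_right_comm, h2]

lemma syn_neg (h2 : ∀ g : G, g + g = 0) (x : Fin n → Bool) :
    syn s (neg x) = syn s x + ∑ i, s i := by
  unfold syn
  rw [← Finset.sum_add_distrib]
  refine Finset.sum_congr rfl fun i _ => ?_
  unfold neg
  cases x i
  · simp
  · simp [h2]

end syn

/-- properties of the half codes used for the fibres -/
structure Good {b : ℕ} (w : Fin b → ZMod 2) (F : Finset (Fin b → Bool)) (e : ZMod 2) : Prop where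
  g1 : ∀ x ∈ F, neg x ∉ F
  g2 : ∀ x ∈ F, ∀ i, flip i x ∉ F
  g3 : ∀ x ∈ F, ∀ i, flip i (neg x) ∉ F
  g4 : ∀ x ∈ F, syn w x = e
  g5 : ∀ z, z ∈ F ∨ (∃ i, flip i z ∈ F) ∨ neg z ∈ F
  g6 : ∀ z, neg z ∈ F → ∃ i j, flip i (flip j z) ∈ F

lemma z2 : ∀ g : ZMod 2, g + g = 0 := by decide

lemma good_syn {b : ℕ} {G : Type} [AddCommGroup G] [DecidableEq G]
    (h2 : ∀ g : G, g + g = 0) (s : Fin b → G) (f : G →+ ZMod 2) (τ : G) (hτ : ∑ i, s i = τ)
    (hτ0 : τ ≠ 0) (hs0 : ∀ i, s i ≠ 0) (hsτ : ∀ i, s i ≠ τ)
    (hsur : ∀ g, g ≠ 0 → g ≠ τ → ∃ i, s i = g) (i₀ : Fin b) (c : G) :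
    Good (fun i => f (s i)) (Finset.univ.filter fun x => syn s x = c) (f c) := by
  have hc : ∀ g h : G, g = h + (g + h) := fun g h => by
    rw [add_left_comm, h2, add_zero]
  refine ⟨?_, ?_, ?_, ?_, ?_, ?_⟩
  · intro x hx h
    rw [Finset.mem_filter] at hx h
    have h1 := h.2
    rw [syn_neg s h2, hx.2, hτ] at h1
    exact hτ0 (by simpa using h1)
  · intro x hx i h
    rw [Finset.mem_filter] at hx h
    have h1 := h.2
    rw [syn_flip s h2, hx.2] at h1
    exact hs0 i (by simpa using h1)
  · intro x hx i h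
    rw [Finset.mem_filter] at hx h
    have h1 := h.2
    rw [syn_flip s h2, syn_neg s h2, hx.2, hτ, add_assoc] at h1
    have h3 : τ + s i = 0 := by simpa using h1
    have h4 : s i = τ := by
      have := congrArg (fun g => τ + g) h3
      simp only [← add_assoc, h2, zero_add, add_zero] at this
      exact this
    exact hsτ i h4
  · intro x hx
    rw [Finset.mem_filter] at hx
    rw [← hx.2]
    unfold syn
    rw [map_sum]
    refine Finset.sum_congr rfl fun i _ => ?_
    split_ifs <;> simp
  · intro z
    by_cases h0 : syn s z + c = 0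
    · left
      rw [Finset.mem_filter]
      refine ⟨Finset.mem_univ _, ?_⟩
      rw [hc (syn s z) c, h0, add_zero]
    by_cases h1 : syn s z + c = τ
    · right; right
      rw [Finset.mem_filter]
      refine ⟨Finset.mem_univ _, ?_⟩
      rw [syn_neg s h2, hτ, ← h1, ← add_assoc, h2, zero_add]
    · right; left
      obtain ⟨i, hi⟩ := hsur _ h0 h1
      refine ⟨i, ?_⟩
      rw [Finset.mem_filter]
      refine ⟨Finset.mem_univ _, ?_⟩
      rw [syn_flip s h2, hi, ← add_assoc, h2, zero_add]
  · intro z hz
    rw [Finset.mem_filter, syn_neg s h2, hτ] at hz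
    obtain ⟨j, hj⟩ := hsur (τ + s i₀) (fun h => by
      have := congrArg (fun g => τ + g) h
      simp only [← add_assoc, h2, zero_add, add_zero] at this
      exact hsτ i₀ this) (fun h => hs0 i₀ (by simpa using h))
    refine ⟨i₀, j, ?_⟩
    rw [Finset.mem_filter]
    refine ⟨Finset.mem_univ _, ?_⟩
    rw [syn_flip s h2, syn_flip s h2, hj, ← hz.2, add_assoc, add_assoc, h2, add_zero]

end Pool.Agent.W273.VR
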