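import Mathlib

/-! Reduced simplicial homology with integer coefficients, through alternating functions on
ordered simplices (oriented chains), and a criterion for its non-vanishing. -/

set_option autoImplicit false

namespace Pool.Agent.W273.VR

section hom

variable {V : Type} [Fintype V] [DecidableEq V]

/-- Oriented chains on simplices with `m` vertices of the complex with set of faces `K`:
alternating integer functions `f` on `m`-tuples of vertices, supported on tuples of distinct
vertices forming a face (`f v` is the coefficient of the oriented simplex `[v₀, ..., v_{m-1}]`). -/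
structure IsChain (K : Finset V → Prop) (m : ℕ) (f : (Fin m → V) → ℤ) : Prop where
  support : ∀ v, f v ≠ 0 → K (Finset.univ.image v)
  distinct : ∀ v, f v ≠ 0 → Function.Injective v
  alternating : ∀ (v : Fin m → V) (σ : Equiv.Perm (Fin m)), f (v ∘ σ) = (σ.sign : ℤ) * f v

/-- The boundary of an oriented chain: the coefficient of `[v₀, ..., v_{m-1}]` is the sum over all
vertices `x` of the coefficients of `[x, v₀, ..., v_{m-1}]`. -/
def boundary {m : ℕ} (f : (Fin (m + 1) → V) → ℤ) : (Fin m → V) → ℤ :=
  fun v => ∑ x, f (Fin.cons x v)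

/-- The reduced integral homology in degree `q ≥ 0` is non-zero: some oriented `q`-cycle is not
the boundary of an oriented `(q+1)`-chain. -/
def HomologyNonzero (K : Finset V → Prop) (q : ℕ) : Prop :=
  ∃ z : (Fin (q + 1) → V) → ℤ, IsChain K (q + 1) z ∧ boundary z = 0 ∧
    ∀ w : (Fin (q + 2) → V) → ℤ, IsChain K (q + 2) w → boundary w ≠ z

/-- the row vectors of the cross-polytopal cycle -/
def row (a b x : V) : ℤ := (if x = a then 1 else 0) - (if x = b then 1 else 0)

theorem nontrivial_of (K : Finset V → Prop) {q : ℕ} (c c' : Fin (q + 1) → V)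
    (hc : Function.Injective c) (hcc : ∀ i j, c' i ≠ c j) (hc' : Function.Injective c')
    (hK : ∀ ε : Fin (q + 1) → Bool, K (Finset.univ.image fun i => if ε i then c i else c' i))
    (hmax : ∀ σ, K σ → (∀ i, c i ∈ σ) → ∀ x ∈ σ, ∃ i, x = c i) :
    HomologyNonzero K q := by
  classical
  let M : (Fin (q + 1) → V) → Matrix (Fin (q + 1)) (Fin (q + 1)) ℤ :=
    fun v => Matrix.of fun j i => row (c i) (c' i) (v j)
  have hM : ∀ v j i, M v j i = row (c i) (c' i) (v j) := fun v j i => rfl
  have htrans : ∀ v, (M v).det ≠ 0 → ∃ (τ : Equiv.Perm (Fin (q + 1))) (ε : Fin (q + 1) → Bool),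
      ∀ i, v (τ i) = if ε i then c i else c' i := by
    intro v hv
    rw [Matrix.det_apply] at hv
    obtain ⟨τ, -, hτ⟩ := Finset.exists_ne_zero_of_sum_ne_zero hv
    have h1 : ∀ i, M v (τ i) i ≠ 0 := by
      intro i hi
      apply hτ
      have hp : ∏ i, M v (τ i) i = 0 := Finset.prod_eq_zero (Finset.mem_univ i) hi
      rw [hp, smul_zero]
    refine ⟨τ, fun i => decide (v (τ i) = c i), fun i => ?_⟩
    have h2 := h1 i
    rw [hM] at h2
    unfold row at h2
    by_cases h3 : v (τ i) = c i
    · simp [h3]
    · rw [if_neg h3] at h2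
      by_cases h4 : v (τ i) = c' i
      · have h5 := hcc i i
        simp [h4, h5]
      · rw [if_neg h4] at h2
        exact absurd rfl h2
  have htr : ∀ (ε : Fin (q + 1) → Bool),
      Function.Injective fun i => if ε i then c i else c' i := by
    intro ε i j hij
    simp only at hij
    split_ifs at hij with h1 h2 h2
    · exact hc hij
    · exact absurd hij.symm (hcc _ _)
    · exact absurd hij (hcc _ _)
    · exact hc' hij
  refine ⟨fun v => (M v).det, ⟨?_, ?_, ?_⟩, ?_, ?_⟩
  · intro v hv
    obtain ⟨τ, ε, h⟩ := htrans v hv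
    have h1 : Finset.univ.image v = Finset.univ.image fun i => if ε i then c i else c' i := by
      ext x
      simp only [Finset.mem_image, Finset.mem_univ, true_and]
      constructor
      · rintro ⟨j, rfl⟩
        exact ⟨τ.symm j, by rw [← h]; simp⟩
      · rintro ⟨i, rfl⟩
        exact ⟨τ i, h i⟩
    rw [h1]
    exact hK ε
  · intro v hv
    obtain ⟨τ, ε, h⟩ := htrans v hv
    intro a b hab
    have h1 := htr ε (a₁ := τ.symm a) (a₂ := τ.symm b) (by
      show (if ε (τ.symm a) then c (τ.symm a) else c' (τ.symm a)) =
        if ε (τ.symm b) then c (τ.symm b) else c' (τ.symm b)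
      rw [← h, ← h]
      simpa using hab)
    exact τ.symm.injective h1
  · intro v σ
    have h1 : M (v ∘ σ) = (M v).submatrix σ id := rfl
    show (M (v ∘ σ)).det = _
    rw [h1, Matrix.det_permute, Int.cast_id]
  · funext v
    show ∑ x, (M (Fin.cons x v)).det = 0
    have h1 : ∀ x, M (Fin.cons x v) = (M (Fin.cons (c 0) v)).updateRow 0
        (fun i => row (c i) (c' i) x) := by
      intro x
      ext j i
      refine Fin.cases ?_ (fun j => ?_) j
      · rw [Matrix.updateRow_self, hM, Fin.cons_zero]
      · rw [Matrix.updateRow_ne (Fin.succ_ne_zero j), hM, hM, Fin.cons_succ, Fin.cons_succ]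
    have h2 : ∑ x, (M (Fin.cons x v)).det =
        ((M (Fin.cons (c 0) v)).updateRow 0 (∑ x, fun i => row (c i) (c' i) x)).det := by
      rw [Finset.sum_congr rfl fun x _ => by rw [h1 x]]
      exact ((Matrix.detRowAlternating (n := Fin (q + 1)) (R := ℤ)).toMultilinearMap.map_update_sum
        Finset.univ 0 (fun (x : V) (i : Fin (q + 1)) => row (c i) (c' i) x)
        (M (Fin.cons (c 0) v))).symm
    rw [h2]
    have h3 : (∑ x, fun i => row (c i) (c' i) x : Fin (q + 1) → ℤ) = 0 := by
      funext i
      rw [Finset.sum_apply]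
      unfold row
      rw [Finset.sum_sub_distrib]
      simp
    rw [h3]
    refine Matrix.det_eq_zero_of_row_eq_zero 0 fun i => ?_
    rw [Matrix.updateRow_self]
    rfl
  · intro w hw h
    have h1 := congrFun h c
    have h2 : (M c).det = 1 := by
      have : M c = 1 := by
        ext j i
        rw [hM, Matrix.one_apply]
        unfold row
        rw [if_neg (Ne.symm (hcc i j)), sub_zero]
        by_cases hij : j = i
        · rw [if_pos hij, if_pos (by rw [hij])]
        · rw [if_neg hij, if_neg fun h => hij (hc h)]
      rw [this, Matrix.det_one]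
    have h3 : boundary w c = 0 := by
      unfold boundary
      refine Finset.sum_eq_zero fun x _ => ?_
      by_contra hne
      have h4 := hw.support _ hne
      have h5 := hw.distinct _ hne
      obtain ⟨i, hi⟩ := hmax _ h4 (fun i => Finset.mem_image.2 ⟨i.succ, Finset.mem_univ _, by
        rw [Fin.cons_succ]⟩) x (Finset.mem_image.2 ⟨0, Finset.mem_univ _, by rw [Fin.cons_zero]⟩)
      have h6 := h5 (a₁ := 0) (a₂ := i.succ) (by rw [Fin.cons_zero, Fin.cons_succ, hi])
      exact Fin.succ_ne_zero i h6.symm
    rw [h3] at h1
    exact zero_ne_one (h1.trans h2)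

end hom

end Pool.Agent.W273.VR
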