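import Pool.Agent.W273.VR.Hom
import Pool.Agent.W273.VR.Cube

/-! Vietoris-Rips complexes of cubes: non-vanishing homology from families of codes. -/

set_option autoImplicit false

namespace Pool.Agent.W273.VR

/-- Nonempty faces of the Vietoris-Rips complex of the cube `{0,1}^n` at scale `r`. -/
def VRFace (n r : ℕ) (σ : Finset (Fin n → Bool)) : Prop :=
  σ.Nonempty ∧ ∀ x ∈ σ, ∀ y ∈ σ, hammingDist x y ≤ r

lemma hd_append {m n : ℕ} (x x' : Fin m → Bool) (y y' : Fin n → Bool) :
    hammingDist (Fin.append x y) (Fin.append x' y') = hammingDist x x' + hammingDist y y' := by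
  rw [hd_sum, hd_sum, hd_sum, Fin.sum_univ_add]
  simp [Fin.append_left, Fin.append_right]

lemma exists_append {m n : ℕ} (z : Fin (m + n) → Bool) :
    ∃ (x : Fin m → Bool) (y : Fin n → Bool), z = Fin.append x y :=
  ⟨fun i => z (Fin.castAdd n i), fun i => z (Fin.natAdd m i), (Fin.append_castAdd_natAdd).symm⟩

/-- parity -/
def pr {a : ℕ} (u : Fin a → Bool) : ZMod 2 := syn (fun _ => (1 : ZMod 2)) u

lemma pr_flip {a : ℕ} (i : Fin a) (u : Fin a → Bool) : pr (flip i u) = pr u + 1 :=
  syn_flip _ z2 i u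

lemma pr_neg {a : ℕ} (ha : Even a) (u : Fin a → Bool) : pr (neg u) = pr u := by
  unfold pr
  rw [syn_neg _ z2]
  obtain ⟨m, rfl⟩ := ha
  have : ∑ _i : Fin (m + m), (1 : ZMod 2) = 0 := by
    rw [Finset.sum_const, Finset.card_univ, Fintype.card_fin, add_smul]
    exact z2 _
  rw [this, add_zero]

lemma ne_add_one : ∀ e : ZMod 2, e ≠ e + 1 := by decide

section main

variable {a b : ℕ} {w : Fin b → ZMod 2} {T : (Fin a → Bool) → Finset (Fin b → Bool)}

lemma key1 (hT : ∀ u, Good w (T u) (pr u)) {u u' : Fin a → Bool} {x x' : Fin b → Bool}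
    (hx : x ∈ T u) (hx' : x' ∈ T u') (hne : ¬ (u = u' ∧ x = x')) :
    2 ≤ hammingDist u u' + hammingDist x x' := by
  by_contra hcon
  by_cases h0 : hammingDist u u' = 0
  · have hu : u = u' := hammingDist_eq_zero.1 h0
    subst hu
    rcases hd_one (x := x) (y := x') (by omega) with h | ⟨i, h⟩
    · exact hne ⟨rfl, h⟩
    · exact (hT u).g2 x hx i (h ▸ hx')
  · have h1 : hammingDist x x' = 0 := by omega
    have hxx : x = x' := hammingDist_eq_zero.1 h1
    subst hxx
    rcases hd_one (x := u) (y := u') (by omega) with h | ⟨i, h⟩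
    · exact hne ⟨h, rfl⟩
    · have e1 := (hT u).g4 x hx
      have e2 := (hT u').g4 x hx'
      rw [h, pr_flip] at e2
      exact ne_add_one _ (e1.symm.trans e2)

lemma key2 (ha : Even a) (hw : ∑ i, w i = 0) (hT : ∀ u, Good w (T u) (pr u))
    (hn : ∀ u, T (neg u) = T u) {u u' : Fin a → Bool} {x x' : Fin b → Bool}
    (hx : x ∈ T u) (hx' : x' ∈ T u') :
    2 ≤ hammingDist (neg u) u' + hammingDist (neg x) x' := by
  by_contra hcon
  by_cases h0 : hammingDist (neg u) u' = 0
  · have hu : neg u = u' := hammingDist_eq_zero.1 h0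
    subst hu
    rw [hn] at hx'
    rcases hd_one (x := neg x) (y := x') (by omega) with h | ⟨i, h⟩
    · exact (hT u).g1 x hx (h ▸ hx')
    · exact (hT u).g3 x hx i (h ▸ hx')
  · have h1 : hammingDist (neg x) x' = 0 := by omega
    have hxx : neg x = x' := hammingDist_eq_zero.1 h1
    subst hxx
    rcases hd_one (x := neg u) (y := u') (by omega) with h | ⟨i, h⟩
    · exact h0 (hammingDist_eq_zero.2 h)
    · have e1 := (hT u).g4 x hx
      have e2 := (hT u').g4 _ hx'
      rw [h, pr_flip, pr_neg ha, syn_neg _ z2, hw, add_zero] at e2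
      exact ne_add_one _ (e1.symm.trans e2)

theorem nontrivial_main (ha : Even a) (hw : ∑ i, w i = 0) (hT : ∀ u, Good w (T u) (pr u))
    (hn : ∀ u, T (neg u) = T u) (k q : ℕ) (hq : ∑ u, (T u).card = q + 1) :
    HomologyNonzero (VRFace (a + b + k) (a + b - 2)) q := by
  classical
  set F : Finset ((Fin a → Bool) × (Fin b → Bool)) :=
    Finset.univ.filter fun p => p.2 ∈ T p.1 with hF
  have hmem : ∀ p, p ∈ F ↔ p.2 ∈ T p.1 := fun p => by simp [hF]
  have hcard : F.card = q + 1 := by
    rw [← hq, hF, Finset.card_filter, Fintype.sum_prod_type]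
    refine Finset.sum_congr rfl fun u _ => ?_
    rw [← Finset.card_filter]
    congr 1
    ext x
    simp
  let e : F ≃ Fin (q + 1) := F.equivFinOfCardEq hcard
  let z0 : Fin k → Bool := fun _ => false
  let U : Fin (q + 1) → (Fin a → Bool) := fun i => (e.symm i).1.1
  let X : Fin (q + 1) → (Fin b → Bool) := fun i => (e.symm i).1.2
  have hX : ∀ i, X i ∈ T (U i) := fun i => (hmem _).1 (e.symm i).2
  have hinj : ∀ i j, U i = U j → X i = X j → i = j := by
    intro i j h1 h2
    exact e.symm.injective (Subtype.ext (Prod.ext h1 h2))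
  let c : Fin (q + 1) → (Fin (a + b + k) → Bool) := fun i =>
    Fin.append (Fin.append (U i) (X i)) z0
  let c' : Fin (q + 1) → (Fin (a + b + k) → Bool) := fun i =>
    Fin.append (Fin.append (neg (U i)) (neg (X i))) z0
  have hd : ∀ (u u' : Fin a → Bool) (x x' : Fin b → Bool) (p p' : Fin k → Bool),
      hammingDist (Fin.append (Fin.append u x) p) (Fin.append (Fin.append u' x') p') =
      hammingDist u u' + hammingDist x x' + hammingDist p p' := by
    intro u u' x x' p p'
    rw [hd_append, hd_append]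
  have hapi : ∀ (u u' : Fin a → Bool) (x x' : Fin b → Bool) (p p' : Fin k → Bool),
      Fin.append (Fin.append u x) p = Fin.append (Fin.append u' x') p' → u = u' ∧ x = x' := by
    intro u u' x x' p p' h
    have h1 := hd u u' x x' p p'
    rw [h, hammingDist_self] at h1
    exact ⟨hammingDist_eq_zero.1 (by omega), hammingDist_eq_zero.1 (by omega)⟩
  have K1 : ∀ i j, i ≠ j → 2 ≤ hammingDist (U i) (U j) + hammingDist (X i) (X j) :=
    fun i j hij => key1 hT (hX i) (hX j) fun h => hij (hinj i j h.1 h.2)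
  have K2 : ∀ i j, 2 ≤ hammingDist (neg (U i)) (U j) + hammingDist (neg (X i)) (X j) :=
    fun i j => key2 ha hw hT hn (hX i) (hX j)
  refine nontrivial_of (VRFace (a + b + k) (a + b - 2)) c c' ?_ ?_ ?_ ?_ ?_
  · intro i j hij
    obtain ⟨h1, h2⟩ := hapi _ _ _ _ _ _ hij
    exact hinj i j h1 h2
  · intro i j hij
    obtain ⟨h1, h2⟩ := hapi _ _ _ _ _ _ hij
    have := K2 i j
    rw [h1, h2, hammingDist_self, hammingDist_self] at this
    omega
  · intro i j hij
    obtain ⟨h1, h2⟩ := hapi _ _ _ _ _ _ hij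
    refine hinj i j ?_ ?_
    · rw [← neg_neg' (U i), h1, neg_neg']
    · rw [← neg_neg' (X i), h2, neg_neg']
  · intro ε
    refine ⟨⟨_, Finset.mem_image.2 ⟨0, Finset.mem_univ _, rfl⟩⟩, ?_⟩
    intro x hx y hy
    obtain ⟨i, -, rfl⟩ := Finset.mem_image.1 hx
    obtain ⟨j, -, rfl⟩ := Finset.mem_image.1 hy
    by_cases hij : i = j
    · subst hij
      rw [hammingDist_self]; exact Nat.zero_le _
    have n1 := hd_neg (U i) (U j)
    have n2 := hd_neg (X i) (X j)
    have k1 := K1 i j hij
    have k2 := K2 i j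
    have hz : hammingDist z0 z0 = 0 := hammingDist_self _
    have m1 : hammingDist (U i) (neg (U j)) = hammingDist (neg (U i)) (U j) := by
      rw [← hd_neg_neg, neg_neg']
    have m2 : hammingDist (X i) (neg (X j)) = hammingDist (neg (X i)) (X j) := by
      rw [← hd_neg_neg, neg_neg']
    cases ε i <;> cases ε j
    · show hammingDist (c' i) (c' j) ≤ _
      rw [hd, hd_neg_neg, hd_neg_neg]
      omega
    · show hammingDist (c' i) (c j) ≤ _
      rw [hd]
      omega
    · show hammingDist (c i) (c' j) ≤ _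
      rw [hd, m1, m2]
      omega
    · show hammingDist (c i) (c j) ≤ _
      rw [hd]
      omega
  · intro σ hσ hc y hy
    obtain ⟨vz, p, rfl⟩ := exists_append y
    obtain ⟨v, z, rfl⟩ := exists_append vz
    have hF2 : ∀ u x, x ∈ T u →
        2 + hammingDist p z0 ≤ hammingDist (neg v) u + hammingDist (neg z) x := by
      intro u x hx
      have h1 : ∃ i, U i = u ∧ X i = x := by
        refine ⟨e ⟨(u, x), (hmem _).2 hx⟩, ?_, ?_⟩
        · show (e.symm (e _)).1.1 = u
          rw [Equiv.symm_apply_apply]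
        · show (e.symm (e _)).1.2 = x
          rw [Equiv.symm_apply_apply]
      obtain ⟨i, rfl, rfl⟩ := h1
      have h2 := hσ.2 _ hy _ (hc i)
      rw [hd] at h2
      have n1 := hd_neg v (U i)
      have n2 := hd_neg z (X i)
      have k2 := K2 i i
      have n3 := hd_neg (U i) (U i)
      have n4 := hd_neg (X i) (X i)
      rw [hammingDist_self] at n3 n4
      omega
    have hz : z ∈ T v := by
      rcases (hT (neg v)).g5 (neg z) with h | ⟨i, h⟩ | h
      · have := hF2 _ _ h
        rw [hammingDist_self, hammingDist_self] at this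
        omega
      · have h1 := hF2 _ _ h
        have h2 := hd_flip i (neg z) (neg z)
        rw [hammingDist_self] at h1 h2
        rw [hammingDist_comm] at h2
        omega
      · rwa [neg_neg', hn] at h
    have hp : hammingDist p z0 = 0 := by
      obtain ⟨i, j, h⟩ := (hT (neg v)).g6 (neg z) (by rwa [neg_neg', hn])
      have h1 := hF2 _ _ h
      have h2 := hd_flip i (flip j (neg z)) (neg z)
      have h3 := hd_flip j (neg z) (neg z)
      rw [hammingDist_self] at h1 h3
      rw [hammingDist_comm] at h2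
      omega
    have hp2 : p = z0 := hammingDist_eq_zero.1 hp
    refine ⟨e ⟨(v, z), (hmem _).2 hz⟩, ?_⟩
    show _ = Fin.append (Fin.append (e.symm (e _)).1.1 (e.symm (e _)).1.2) z0
    rw [Equiv.symm_apply_apply, hp2]

end main

end Pool.Agent.W273.VR
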